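import Pool.Agent.H27.G.R_seed8.H448R2.GC.S4

set_option autoImplicit false

/-!
N4 project, job AFE: the symmetric smooth approximate functional equation.
-/

namespace Pool.Agent.TH75.AFE1

open Complex MeasureTheory Filter Topology
open Pool.Agent.H448R2.GC

/-- the exact formula after the shift to the line `-x₁` -/
theorem left_id (x₁ : ℝ) (hx₁ : 1 / 2 < x₁) (hx₁' : x₁ ≤ 1) : ∃ k₀ : ℕ, ∀ k : ℕ, k₀ ≤ k →
    ∀ (c D : ℝ), 0 < c → ∀ s : ℂ, s.re = 1 / 2 →
    riemannZeta s - cs k c D s + (1 / (2 * Real.pi)) * ∫ y : ℝ,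
      riemannZeta (s + (((-x₁ : ℝ) : ℂ) + (y : ℂ) * I)) * ker k c D (-x₁) y =
    -(cexp ((D : ℂ) * (1 - s)) * Ps k c (1 - s) / (1 - s)) := by
  obtain ⟨CZ, B, hCZ, hZ⟩ := Pool.Agent.H448R2.GC.zeta_one_growth 1
  refine ⟨B + 1, ?_⟩
  intro k hk c D hc s hs1
  have hm : 0 < min 1 c := lt_min one_pos hc
  set Z : ℂ → ℂ := Function.update (fun w : ℂ => (w - 1) * riemannZeta w) 1 1 with hZdef
  have hZne : ∀ w : ℂ, w ≠ 1 → Z w = (w - 1) * riemannZeta w := by
    intro w hw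
    rw [hZdef, Function.update_of_ne hw]
  have hZ1 : Z 1 = 1 := by
    rw [hZdef, Function.update_self]
  set G : ℂ → ℂ := fun z => Z (s + z) * (cexp ((D : ℂ) * z) * Ps k c z) with hG
  have hGd : Differentiable ℂ G := by
    have h1 : Differentiable ℂ (fun z : ℂ => Z (s + z)) :=
      Pool.Agent.H448R2.GC.zeta_one_entire.comp (by fun_prop)
    have h2 : Differentiable ℂ (fun z : ℂ => cexp ((D : ℂ) * z)) := by fun_prop
    exact h1.mul (h2.mul (Pool.Agent.H448R2.GC.Ps_entire k c))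
  have hs : s ≠ 1 := by
    intro h
    rw [h] at hs1
    norm_num at hs1
  have hs' : (1 : ℂ) - s ≠ 0 := fun h => hs (sub_eq_zero.1 h).symm
  have hline : ∀ x : ℝ, s.re + x ≠ 1 → x ≠ 0 → ∀ y : ℝ,
      G ((x : ℂ) + (y : ℂ) * I) /
        ((((x : ℂ) + (y : ℂ) * I) - 0) * (((x : ℂ) + (y : ℂ) * I) - (1 - s))) =
      riemannZeta (s + ((x : ℂ) + (y : ℂ) * I)) * ker k c D x y := by
    intro x hx hx0 y
    have hne : s + ((x : ℂ) + (y : ℂ) * I) ≠ 1 := by
      intro h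
      apply hx
      have := congrArg Complex.re h
      simpa using this
    have hz0 : ((x : ℂ) + (y : ℂ) * I) ≠ 0 := by
      intro h
      apply hx0
      have := congrArg Complex.re h
      simpa using this
    have hsub : ((x : ℂ) + (y : ℂ) * I) - (1 - s) = (s + ((x : ℂ) + (y : ℂ) * I)) - 1 := by ring
    have hne' : (s + ((x : ℂ) + (y : ℂ) * I)) - 1 ≠ 0 := sub_ne_zero.2 hne
    rw [hG]
    simp only
    rw [hZne _ hne, hsub, sub_zero]
    unfold Pool.Agent.H448R2.GC.ker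
    field_simp
  have key := Pool.Agent.H448R2.GC.shift2 G 0 (1 - s) (-x₁) 1
    (CZ * (1 + |s.im|) ^ B * (Real.exp (|D|) * (Real.exp (k * c) * (3 / min 1 c) ^ k)))
    hGd (Ne.symm hs') (by simp; linarith) (by simp) (by simp; linarith) (by simp; linarith) ?_
  · have e1 : (∫ y : ℝ, G (((1 : ℝ) : ℂ) + (y : ℂ) * I) /
        (((((1 : ℝ) : ℂ) + (y : ℂ) * I) - 0) * ((((1 : ℝ) : ℂ) + (y : ℂ) * I) - (1 - s)))) =
        ∫ y : ℝ, riemannZeta (s + (((1 : ℝ) : ℂ) + (y : ℂ) * I)) * ker k c D 1 y := by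
      congr 1
      ext y
      exact hline 1 (by linarith) one_ne_zero y
    have e2 : (∫ y : ℝ, G (((-x₁ : ℝ) : ℂ) + (y : ℂ) * I) /
        (((((-x₁ : ℝ) : ℂ) + (y : ℂ) * I) - 0) * ((((-x₁ : ℝ) : ℂ) + (y : ℂ) * I) - (1 - s)))) =
        ∫ y : ℝ, riemannZeta (s + (((-x₁ : ℝ) : ℂ) + (y : ℂ) * I)) * ker k c D (-x₁) y := by
      congr 1
      ext y
      exact hline (-x₁) (by linarith) (by linarith) y
    rw [e1, e2] at key
    have e3 := Pool.Agent.H448R2.GC.cs_line k (by omega) c D 1 hc one_pos s (by linarith)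
    have e4 : G 0 / (0 - (1 - s)) = riemannZeta s := by
      rw [hG]
      simp only
      rw [add_zero, hZne s hs, Pool.Agent.H448R2.GC.Ps_zero]
      have : (0 : ℂ) - (1 - s) = s - 1 := by ring
      rw [this]
      have h3 : s - 1 ≠ 0 := sub_ne_zero.2 hs
      simp
      field_simp
    have e5 : G (1 - s) / (1 - s - 0) = cexp ((D : ℂ) * (1 - s)) * Ps k c (1 - s) / (1 - s) := by
      rw [hG]
      simp only
      have : s + (1 - s) = 1 := by ring
      rw [this, hZ1, one_mul, sub_zero]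
    rw [e4, e5] at key
    rw [e3]
    have hpi : (Real.pi : ℂ) ≠ 0 := by exact_mod_cast Real.pi_ne_zero
    have key2 : (∫ y : ℝ, riemannZeta (s + (((1 : ℝ) : ℂ) + (y : ℂ) * I)) * ker k c D 1 y) =
        (∫ y : ℝ, riemannZeta (s + (((-x₁ : ℝ) : ℂ) + (y : ℂ) * I)) * ker k c D (-x₁) y) +
        2 * Real.pi * (riemannZeta s + cexp ((D : ℂ) * (1 - s)) * Ps k c (1 - s) / (1 - s)) := by
      rw [← key]
      ring
    rw [key2, mul_add]
    have h5 : (1 / (2 * (Real.pi : ℂ))) * (2 * Real.pi *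
        (riemannZeta s + cexp ((D : ℂ) * (1 - s)) * Ps k c (1 - s) / (1 - s))) =
        riemannZeta s + cexp ((D : ℂ) * (1 - s)) * Ps k c (1 - s) / (1 - s) := by
      rw [← mul_assoc]
      rw [one_div, inv_mul_cancel₀ (by simp [Real.pi_ne_zero]), one_mul]
    rw [h5]
    ring
  · intro z hz1 hz2
    have b1 : ‖Z (s + z)‖ ≤ CZ * (1 + |s.im|) ^ B * (1 + ‖z‖) ^ B := by
      refine (hZ (s + z) (by simp; linarith) (by simp; linarith)).trans ?_
      have e1 : 1 + |(s + z).im| ≤ (1 + |s.im|) * (1 + ‖z‖) := by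
        rw [Complex.add_im]
        refine (S4.one_add_abs_le _ _).trans ?_
        apply mul_le_mul_of_nonneg_left _ (by positivity)
        linarith [Complex.abs_im_le_norm z]
      calc CZ * (1 + |(s + z).im|) ^ B ≤ CZ * ((1 + |s.im|) * (1 + ‖z‖)) ^ B := by gcongr
        _ = _ := by rw [mul_pow]; ring
    have b2 : ‖cexp ((D : ℂ) * z)‖ ≤ Real.exp (|D|) := by
      rw [Complex.norm_exp]
      apply Real.exp_le_exp.2
      simp
      calc D * z.re ≤ |D * z.re| := le_abs_self _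
        _ = |D| * |z.re| := abs_mul _ _
        _ ≤ |D| * 1 := by
            apply mul_le_mul_of_nonneg_left _ (abs_nonneg D)
            rw [abs_le]
            constructor <;> linarith
        _ = |D| := mul_one _
    have b3 : ‖Ps k c z‖ ≤ Real.exp (k * c) * (3 / min 1 c) ^ k * ((1 + ‖z‖) ^ k)⁻¹ := by
      refine (Pool.Agent.H448R2.GC.Ps_bound k c hc z).trans ?_
      rw [mul_assoc (Real.exp (k * c))]
      apply mul_le_mul _ (S4.ratio k c hc ‖z‖ (norm_nonneg z)) (by positivity) (Real.exp_pos _).le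
      apply Real.exp_le_exp.2
      have : max z.re 0 ≤ 1 := max_le hz2 zero_le_one
      have h2 : 0 ≤ (k : ℝ) * c := by positivity
      nlinarith
    have b4 : (1 + ‖z‖) ^ B * ((1 + ‖z‖) ^ k)⁻¹ ≤ 1 := by
      rw [← div_eq_mul_inv]
      apply div_le_one_of_le₀ _ (by positivity)
      apply pow_le_pow_right₀ (by linarith [norm_nonneg z]) (by omega)
    rw [hG]
    simp only
    rw [norm_mul, norm_mul]
    calc ‖Z (s + z)‖ * (‖cexp ((D : ℂ) * z)‖ * ‖Ps k c z‖)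
        ≤ (CZ * (1 + |s.im|) ^ B * (1 + ‖z‖) ^ B) * (Real.exp (|D|) *
          (Real.exp (k * c) * (3 / min 1 c) ^ k * ((1 + ‖z‖) ^ k)⁻¹)) := by gcongr
      _ = (CZ * (1 + |s.im|) ^ B * (Real.exp (|D|) * (Real.exp (k * c) * (3 / min 1 c) ^ k))) *
          ((1 + ‖z‖) ^ B * ((1 + ‖z‖) ^ k)⁻¹) := by ring
      _ ≤ (CZ * (1 + |s.im|) ^ B * (Real.exp (|D|) * (Real.exp (k * c) * (3 / min 1 c) ^ k))) *
          1 := by
          apply mul_le_mul_of_nonneg_left b4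
          positivity
      _ = _ := by ring

theorem zeta_bdd54 : ∃ C : ℝ, 0 < C ∧ ∀ s : ℂ, 5 / 4 ≤ s.re → ‖riemannZeta s‖ ≤ C := by
  have hsum : Summable (fun n : ℕ => 1 / ((n : ℝ) + 1) ^ (5 / 4 : ℝ)) := by
    have := (Real.summable_one_div_nat_rpow (p := 5 / 4)).mpr (by norm_num)
    have h2 := (summable_nat_add_iff 1).mpr this
    simpa using h2
  refine ⟨(∑' n : ℕ, 1 / ((n : ℝ) + 1) ^ (5 / 4 : ℝ)) + 1, ?_, ?_⟩
  · have : 0 ≤ ∑' n : ℕ, 1 / ((n : ℝ) + 1) ^ (5 / 4 : ℝ) := tsum_nonneg (fun n => by positivity)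
    linarith
  · intro s hs
    rw [zeta_eq_tsum_one_div_nat_add_one_cpow (by linarith)]
    have hle : ∀ n : ℕ, ‖1 / ((n : ℂ) + 1) ^ s‖ ≤ 1 / ((n : ℝ) + 1) ^ (5 / 4 : ℝ) := by
      intro n
      have e : ((n : ℂ) + 1) = (((n : ℝ) + 1 : ℝ) : ℂ) := by push_cast; ring
      rw [norm_div, norm_one, e, Complex.norm_cpow_eq_rpow_re_of_pos (by positivity)]
      gcongr
      linarith [(Nat.cast_nonneg n : (0 : ℝ) ≤ n)]
    have hs2 : Summable (fun n : ℕ => ‖1 / ((n : ℂ) + 1) ^ s‖) :=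
      Summable.of_nonneg_of_le (fun n => norm_nonneg _) hle hsum
    calc ‖∑' n : ℕ, 1 / ((n : ℂ) + 1) ^ s‖ ≤ ∑' n : ℕ, ‖1 / ((n : ℂ) + 1) ^ s‖ :=
          norm_tsum_le_tsum_norm hs2
      _ ≤ ∑' n : ℕ, 1 / ((n : ℝ) + 1) ^ (5 / 4 : ℝ) := hs2.tsum_le_tsum hle hsum
      _ ≤ _ := by linarith

/-- comparison of `XX` on the lines `5/4` and `1/2` -/
theorem XX_cmp : ∃ C : ℝ, 0 < C ∧ ∀ t : ℝ, 24 ≤ t → ∀ y : ℝ,
    ‖XX ((5 / 4 : ℂ) + ((t + y : ℝ) : ℂ) * I) - XX ((1 / 2 : ℂ) + (t : ℂ) * I) *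
      cexp (((3 / 4 : ℂ) + (y : ℂ) * I) * ((Real.log (t / (2 * Real.pi)) : ℝ) : ℂ))‖ ≤
      C * (1 + |y|) ^ 2 * t ^ (-(1 / 4) : ℝ) := by
  obtain ⟨CX, hCX, hX⟩ := XX_upper 2
  refine ⟨448 * CX, by positivity, fun t ht y => ?_⟩
  have ht0 : 0 < t := by linarith
  have hpi := Real.pi_gt_three
  have hpi4 : Real.pi < 4 := by linarith [Real.pi_lt_d2]
  set l : ℝ := Real.log (t / (2 * Real.pi)) with hl
  have hl' : l = Real.log t - Real.log (2 * Real.pi) := by
    rw [hl, Real.log_div ht0.ne' (by positivity)]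
  have hlt : l ≤ Real.log t := by
    rw [hl']
    have : 0 ≤ Real.log (2 * Real.pi) := Real.log_nonneg (by linarith)
    linarith
  have hE : ‖cexp (((3 / 4 : ℂ) + (y : ℂ) * I) * (l : ℂ))‖ ≤ t ^ (3 / 4 : ℝ) := by
    rw [Complex.norm_exp, Real.rpow_def_of_pos ht0]
    apply Real.exp_le_exp.2
    have : (((3 / 4 : ℂ) + (y : ℂ) * I) * (l : ℂ)).re = 3 / 4 * l := by
      simp
    rw [this]
    linarith
  rcases le_or_gt |y| (t / 2) with hy | hy
  · -- the main case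
    set z₀ : ℂ := (3 / 4 : ℂ) + (y : ℂ) * I with hz₀
    have hz₀re : z₀.re = 3 / 4 := by rw [hz₀]; simp
    have hz₀im : z₀.im = y := by rw [hz₀]; simp
    let P : ℝ → ℂ := fun τ => (1 / 2 : ℂ) + (t : ℂ) * I + (τ : ℂ) * z₀
    have hPre : ∀ τ : ℝ, (P τ).re = 1 / 2 + 3 / 4 * τ := by
      intro τ
      simp only [P]
      simp [hz₀re]
      ring
    have hPim : ∀ τ : ℝ, (P τ).im = t + τ * y := by
      intro τ
      simp only [P]
      simp [hz₀im]
    let F : ℝ → ℂ := fun τ => XX (P τ) * cexp (-((τ : ℂ) * z₀ * (l : ℂ)))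
    have hyabs := abs_le.1 hy
    have him : ∀ τ : ℝ, 0 ≤ τ → τ ≤ 1 → t / 2 ≤ t + τ * y ∧ |τ * y| ≤ |y| := by
      intro τ h0 h1
      have h2 : |τ * y| ≤ |y| := by
        rw [abs_mul, abs_of_nonneg h0]
        exact mul_le_of_le_one_left (abs_nonneg y) h1
      have h3 := (abs_le.1 (h2.trans hy)).1
      exact ⟨by linarith, h2⟩
    have hF : ∀ τ : ℝ, 0 ≤ τ → τ ≤ 1 → ‖F τ‖ ≤ 16 * CX := by
      intro τ h0 h1
      simp only [F]
      rw [norm_mul, Complex.norm_exp]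
      have e1 : (-((τ : ℂ) * z₀ * (l : ℂ))).re = -(3 / 4 * τ * l) := by
        have : (τ : ℂ) * z₀ * (l : ℂ) = ((τ * l : ℝ) : ℂ) * z₀ := by push_cast; ring
        rw [this, Complex.neg_re, Complex.re_ofReal_mul, hz₀re]
        ring
      rw [e1]
      have h2 := hX (P τ) (by rw [hPre]; linarith) (by rw [hPre]; linarith)
      rw [hPre, hPim] at h2
      have e2 : (1 : ℝ) / 2 + 3 / 4 * τ - 1 / 2 = 3 / 4 * τ := by ring
      rw [e2] at h2
      obtain ⟨h3, h4⟩ := him τ h0 h1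
      have h5 : 1 + |t + τ * y| ≤ 2 * t := by
        rw [abs_of_nonneg (by linarith)]
        have := (abs_le.1 (h4.trans hy)).2
        linarith
      have h6 : (1 + |t + τ * y|) ^ (3 / 4 * τ) ≤ (2 * t) ^ (3 / 4 * τ) :=
        Real.rpow_le_rpow (by positivity) h5 (by positivity)
      have h7 : (2 * t) ^ (3 / 4 * τ) * Real.exp (-(3 / 4 * τ * l)) ≤ 16 := by
        rw [Real.rpow_def_of_pos (by positivity), ← Real.exp_add, Real.log_mul two_ne_zero ht0.ne',
          hl']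
        have h8 : Real.log (2 * Real.pi) = Real.log 2 + Real.log Real.pi :=
          Real.log_mul two_ne_zero Real.pi_ne_zero
        have h9 : Real.log 2 + Real.log (2 * Real.pi) = Real.log (2 * (2 * Real.pi)) :=
          (Real.log_mul two_ne_zero (by positivity)).symm
        have h10 : (Real.log 2 + Real.log t) * (3 / 4 * τ) +
            -(3 / 4 * τ * (Real.log t - Real.log (2 * Real.pi))) =
            (Real.log (2 * (2 * Real.pi))) * (3 / 4 * τ) := by
          rw [← h9]; ring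
        rw [h10]
        have h11 : 0 ≤ Real.log (2 * (2 * Real.pi)) := Real.log_nonneg (by linarith)
        have h12 : Real.log (2 * (2 * Real.pi)) * (3 / 4 * τ) ≤ Real.log (2 * (2 * Real.pi)) :=
          mul_le_of_le_one_right h11 (by linarith)
        calc Real.exp (Real.log (2 * (2 * Real.pi)) * (3 / 4 * τ))
            ≤ Real.exp (Real.log (2 * (2 * Real.pi))) := Real.exp_le_exp.2 h12
          _ = 2 * (2 * Real.pi) := Real.exp_log (by positivity)
          _ ≤ 16 := by linarith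
      calc ‖XX (P τ)‖ * Real.exp (-(3 / 4 * τ * l))
          ≤ (CX * (2 * t) ^ (3 / 4 * τ)) * Real.exp (-(3 / 4 * τ * l)) := by
            apply mul_le_mul_of_nonneg_right _ (Real.exp_pos _).le
            exact h2.trans (mul_le_mul_of_nonneg_left h6 hCX.le)
        _ = CX * ((2 * t) ^ (3 / 4 * τ) * Real.exp (-(3 / 4 * τ * l))) := by ring
        _ ≤ CX * 16 := mul_le_mul_of_nonneg_left h7 hCX.le
        _ = _ := by ring
    have hder : ∀ τ : ℝ, 0 ≤ τ → τ ≤ 1 → HasDerivAt F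
        (F τ * (z₀ * (H345.Chi.L2 (P τ) - (l : ℂ)))) τ := by
      intro τ h0 h1
      obtain ⟨h3, h4⟩ := him τ h0 h1
      have g1 : HasDerivAt XX (XX (P τ) * H345.Chi.L2 (P τ)) (P τ) :=
        H345.Chi.hasDerivAt_XX (s := P τ) (by rw [hPre]; linarith) (by rw [hPim]; linarith)
      have g0 : HasDerivAt (fun τ : ℝ => (τ : ℂ)) 1 τ := by
        simpa using (hasDerivAt_id τ).ofReal_comp
      have g2 : HasDerivAt P z₀ τ := by
        have := (g0.mul_const z₀).const_add ((1 / 2 : ℂ) + (t : ℂ) * I)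
        rw [one_mul] at this
        exact this
      have g3 := g1.comp τ g2
      have g4 : HasDerivAt (fun τ : ℝ => -((τ : ℂ) * z₀ * (l : ℂ))) (-(z₀ * (l : ℂ))) τ := by
        exact HasDerivAt.congr_deriv ((g0.mul_const z₀).mul_const (l : ℂ)).neg (by ring)
      have g5 := g3.mul g4.cexp
      refine HasDerivAt.congr_deriv g5 ?_
      simp only [F, Function.comp]
      ring
    have hznorm : ‖z₀‖ ≤ 1 + |y| := by
      rw [hz₀]
      refine (norm_add_le _ _).trans ?_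
      rw [norm_mul, Complex.norm_I, mul_one, Complex.norm_real, Real.norm_eq_abs]
      have : ‖(3 / 4 : ℂ)‖ ≤ 1 := by
        rw [show (3 / 4 : ℂ) = ((3 / 4 : ℝ) : ℂ) by push_cast; ring, Complex.norm_real]
        norm_num
      linarith
    have hbound : ∀ τ : ℝ, 0 ≤ τ → τ ≤ 1 →
        ‖F τ * (z₀ * (H345.Chi.L2 (P τ) - (l : ℂ)))‖ ≤ 448 * CX * (1 + |y|) ^ 2 / t := by
      intro τ h0 h1
      obtain ⟨h3, h4⟩ := him τ h0 h1
      have g1 := H345.Chi.L2_close (s := P τ) (by rw [hPre]; linarith) (by rw [hPre]; linarith)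
        (by rw [hPim]; linarith)
      rw [hPim] at g1
      have hpos : 0 < t + τ * y := by linarith
      have g2 : |Real.log ((t + τ * y) / (2 * Real.pi)) - l| ≤ 2 * |τ * y| / t := by
        rw [hl', Real.log_div hpos.ne' (by positivity)]
        have := H345.Chi.abs_log_ratio ht0 (h4.trans hy)
        convert this using 2
        ring
      have g3 : ‖H345.Chi.L2 (P τ) - (l : ℂ)‖ ≤ (28 + 2 * |y|) / t := by
        calc ‖H345.Chi.L2 (P τ) - (l : ℂ)‖
            = ‖(H345.Chi.L2 (P τ) - (Real.log ((t + τ * y) / (2 * Real.pi)) : ℂ)) +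
                ((Real.log ((t + τ * y) / (2 * Real.pi)) - l : ℝ) : ℂ)‖ := by
              congr 1; push_cast; ring
          _ ≤ 14 / (t + τ * y) + 2 * |τ * y| / t := by
              refine (norm_add_le _ _).trans (add_le_add g1 ?_)
              rw [Complex.norm_real]
              exact g2
          _ ≤ 28 / t + 2 * |y| / t := by
              apply add_le_add
              · rw [div_le_div_iff₀ hpos ht0]
                linarith
              · gcongr
          _ = (28 + 2 * |y|) / t := by ring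
      rw [norm_mul (F τ), norm_mul z₀]
      have hy0 := abs_nonneg y
      calc ‖F τ‖ * (‖z₀‖ * ‖H345.Chi.L2 (P τ) - (l : ℂ)‖)
          ≤ (16 * CX) * ((1 + |y|) * ((28 + 2 * |y|) / t)) := by
            apply mul_le_mul (hF τ h0 h1) _ (by positivity) (by positivity)
            exact mul_le_mul hznorm g3 (norm_nonneg _) (by positivity)
        _ = 16 * CX * ((1 + |y|) * (28 + 2 * |y|)) / t := by ring
        _ ≤ 448 * CX * (1 + |y|) ^ 2 / t := by
            apply div_le_div_of_nonneg_right _ ht0.le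
            have : (1 + |y|) * (28 + 2 * |y|) ≤ 28 * (1 + |y|) ^ 2 := by nlinarith
            nlinarith
    have hmv := Convex.norm_image_sub_le_of_norm_hasDerivWithin_le (𝕜 := ℝ) (f := F)
      (f' := fun τ => F τ * (z₀ * (H345.Chi.L2 (P τ) - (l : ℂ))))
      (s := Set.Icc 0 1) (x := 0) (y := 1) (C := 448 * CX * (1 + |y|) ^ 2 / t)
      (fun τ hτ => (hder τ hτ.1 hτ.2).hasDerivWithinAt)
      (fun τ hτ => hbound τ hτ.1 hτ.2) (convex_Icc _ _)
      ⟨le_rfl, zero_le_one⟩ ⟨zero_le_one, le_rfl⟩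
    have e1 : XX ((5 / 4 : ℂ) + ((t + y : ℝ) : ℂ) * I) - XX ((1 / 2 : ℂ) + (t : ℂ) * I) *
        cexp (z₀ * (l : ℂ)) = (F 1 - F 0) * cexp (z₀ * (l : ℂ)) := by
      have h1 : cexp (-(((1 : ℝ) : ℂ) * z₀ * (l : ℂ))) * cexp (z₀ * (l : ℂ)) = 1 := by
        rw [← Complex.exp_add]
        simp
      have h2 : F 1 * cexp (z₀ * (l : ℂ)) = XX ((5 / 4 : ℂ) + ((t + y : ℝ) : ℂ) * I) := by
        simp only [F]
        rw [mul_assoc, h1, mul_one]
        congr 1
        simp only [P]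
        rw [hz₀]
        push_cast
        ring
      have h3 : F 0 = XX ((1 / 2 : ℂ) + (t : ℂ) * I) := by
        simp [F, P]
      rw [sub_mul, h2, h3]
    rw [e1, norm_mul]
    rw [sub_zero, norm_one, mul_one] at hmv
    calc ‖F 1 - F 0‖ * ‖cexp (z₀ * (l : ℂ))‖
        ≤ (448 * CX * (1 + |y|) ^ 2 / t) * t ^ (3 / 4 : ℝ) :=
          mul_le_mul hmv hE (norm_nonneg _) (by positivity)
      _ = 448 * CX * (1 + |y|) ^ 2 * (t ^ (3 / 4 : ℝ) * t⁻¹) := by ring
      _ = 448 * CX * (1 + |y|) ^ 2 * t ^ (-(1 / 4) : ℝ) := by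
          congr 1
          rw [← Real.rpow_neg_one, ← Real.rpow_add ht0]
          norm_num
  · -- the trivial case
    have hy0 := abs_nonneg y
    have h1 : ‖XX ((5 / 4 : ℂ) + ((t + y : ℝ) : ℂ) * I)‖ ≤ 3 * CX * (1 + |y|) := by
      have hre : ((5 / 4 : ℂ) + ((t + y : ℝ) : ℂ) * I).re = 5 / 4 := by simp
      have him : ((5 / 4 : ℂ) + ((t + y : ℝ) : ℂ) * I).im = t + y := by simp
      have h2 := hX ((5 / 4 : ℂ) + ((t + y : ℝ) : ℂ) * I) (by rw [hre]; norm_num)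
        (by rw [hre]; norm_num)
      rw [hre, him] at h2
      have h3 : |t + y| ≤ 3 * |y| := by
        refine (abs_add_le t y).trans ?_
        rw [abs_of_pos ht0]
        linarith
      have h4 : (1 + |t + y|) ^ ((5 : ℝ) / 4 - 1 / 2) ≤ (1 + |t + y|) ^ (1 : ℝ) :=
        Real.rpow_le_rpow_of_exponent_le (by linarith [abs_nonneg (t + y)]) (by norm_num)
      rw [Real.rpow_one] at h4
      calc _ ≤ CX * (1 + |t + y|) ^ ((5 : ℝ) / 4 - 1 / 2) := h2
        _ ≤ CX * (1 + |t + y|) := mul_le_mul_of_nonneg_left h4 hCX.le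
        _ ≤ CX * (3 * (1 + |y|)) := mul_le_mul_of_nonneg_left (by linarith) hCX.le
        _ = _ := by ring
    have h2 : ‖XX ((1 / 2 : ℂ) + (t : ℂ) * I)‖ ≤ CX := by
      have hre : ((1 / 2 : ℂ) + (t : ℂ) * I).re = 1 / 2 := by simp
      have h2 := hX ((1 / 2 : ℂ) + (t : ℂ) * I) (by rw [hre]) (by rw [hre]; norm_num)
      rw [hre, sub_self, Real.rpow_zero, mul_one] at h2
      exact h2
    have h3 : t ^ (3 / 4 : ℝ) ≤ 2 * (1 + |y|) := by
      calc t ^ (3 / 4 : ℝ) ≤ t ^ (1 : ℝ) :=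
            Real.rpow_le_rpow_of_exponent_le (by linarith) (by norm_num)
        _ = t := Real.rpow_one t
        _ ≤ _ := by linarith
    have h4 : ‖XX ((5 / 4 : ℂ) + ((t + y : ℝ) : ℂ) * I) - XX ((1 / 2 : ℂ) + (t : ℂ) * I) *
        cexp (((3 / 4 : ℂ) + (y : ℂ) * I) * (l : ℂ))‖ ≤ 5 * CX * (1 + |y|) := by
      refine (norm_sub_le _ _).trans ?_
      rw [norm_mul]
      calc _ ≤ 3 * CX * (1 + |y|) + CX * (2 * (1 + |y|)) := by
            apply add_le_add h1
            exact mul_le_mul h2 (hE.trans h3) (norm_nonneg _) hCX.le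
        _ = _ := by ring
    have h5 : t ^ (-1 : ℝ) ≤ t ^ (-(1 / 4) : ℝ) :=
      Real.rpow_le_rpow_of_exponent_le (by linarith) (by norm_num)
    have h6 : 1 ≤ 2 * (1 + |y|) * t ^ (-1 : ℝ) := by
      rw [Real.rpow_neg_one, ← div_eq_mul_inv, le_div_iff₀ ht0]
      linarith
    have hp : 0 ≤ t ^ (-(1 / 4) : ℝ) := by positivity
    calc _ ≤ 5 * CX * (1 + |y|) := h4
      _ = 5 * CX * (1 + |y|) * 1 := (mul_one _).symm
      _ ≤ 5 * CX * (1 + |y|) * (2 * (1 + |y|) * t ^ (-1 : ℝ)) :=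
          mul_le_mul_of_nonneg_left h6 (by positivity)
      _ ≤ 5 * CX * (1 + |y|) * (2 * (1 + |y|) * t ^ (-(1 / 4) : ℝ)) := by gcongr
      _ = 10 * (CX * (1 + |y|) ^ 2 * t ^ (-(1 / 4) : ℝ)) := by ring
      _ ≤ 448 * (CX * (1 + |y|) ^ 2 * t ^ (-(1 / 4) : ℝ)) := by
          apply mul_le_mul_of_nonneg_right (by norm_num) (by positivity)
      _ = _ := by ring

/-- the symmetry of `Ps` -/
theorem Ps_neg (k : ℕ) (c : ℝ) (hc : 0 < c) (z : ℂ) (hz : z ≠ 0) :
    Ps k c (-z) = cexp (-((k * c : ℝ) : ℂ) * z) * Ps k c z := by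
  rw [K2.Ps_eq, K2.Ps_eq, K2.J_eq c hc.ne' z hz, K2.J_eq c hc.ne' (-z) (neg_ne_zero.2 hz)]
  have hc' : (c : ℂ) ≠ 0 := by exact_mod_cast hc.ne'
  have h1 : (cexp ((c : ℂ) * -z) - 1) / ((c : ℂ) * -z) =
      cexp (-(c : ℂ) * z) * ((cexp ((c : ℂ) * z) - 1) / ((c : ℂ) * z)) := by
    have h2 : cexp ((c : ℂ) * -z) = cexp (-(c : ℂ) * z) := by congr 1; ring
    have h3 : cexp (-(c : ℂ) * z) * cexp ((c : ℂ) * z) = 1 := by
      rw [← Complex.exp_add]; simp
    rw [h2, mul_div_assoc', mul_sub, h3, mul_one, mul_neg, div_neg, ← neg_div, neg_sub]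
  rw [h1, mul_pow, ← Complex.exp_nat_mul]
  congr 2
  push_cast
  ring

theorem ker_dual (k : ℕ) (c D l x y : ℝ) (hc : 0 < c) (hx : x ≠ 0) :
    cexp (-((((-x : ℝ) : ℂ) + (y : ℂ) * I) * (l : ℂ))) * ker k c D (-x) y =
      -ker k c (l - D - k * c) x (-y) := by
  have hz : ((x : ℂ) + ((-y : ℝ) : ℂ) * I) ≠ 0 := K2.z_ne x (-y) hx
  have hw : (((-x : ℝ) : ℂ) + (y : ℂ) * I) = -((x : ℂ) + ((-y : ℝ) : ℂ) * I) := by
    push_cast; ring
  unfold Pool.Agent.H448R2.GC.ker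
  rw [hw, Ps_neg k c hc _ hz]
  generalize (x : ℂ) + ((-y : ℝ) : ℂ) * I = z at hz ⊢
  have e : cexp (((l - D - k * c : ℝ) : ℂ) * z) =
      cexp (-(-z * (l : ℂ))) * cexp ((D : ℂ) * -z) * cexp (-((k * c : ℝ) : ℂ) * z) := by
    rw [← Complex.exp_add, ← Complex.exp_add]
    congr 1
    push_cast
    ring
  rw [e]
  field_simp

end Pool.Agent.TH75.AFE1
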