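import Pool.Agent.H27.G.R_seed8.TH75.AFE1

set_option autoImplicit false

/-!
N4 project, job AFE: assembly of the symmetric smooth approximate functional equation.
-/

namespace Pool.Agent.TH75.AFE1

open Complex MeasureTheory Filter Topology
open Pool.Agent.H448R2.GC

theorem half_conj (x t : ℝ) : (x : ℂ) - (t : ℂ) * I = (starRingEnd ℂ) ((x : ℂ) + (t : ℂ) * I) := by
  apply Complex.ext <;> simp

/-- the difference of the factors on the line `-3/4` -/
theorem XX_cmp' : ∃ C : ℝ, 0 < C ∧ ∀ t : ℝ, 24 ≤ t → ∀ y : ℝ,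
    ‖XX (((5 / 4 : ℝ) : ℂ) - ((t + y : ℝ) : ℂ) * I) - XX (((1 / 2 : ℝ) : ℂ) - (t : ℂ) * I) *
      cexp (-((((-(3 / 4) : ℝ) : ℂ) + (y : ℂ) * I) * ((Real.log (t / (2 * Real.pi)) : ℝ) : ℂ)))‖ ≤
      C * (1 + |y|) ^ 2 * t ^ (-(1 / 4) : ℝ) := by
  obtain ⟨C, hC, h⟩ := XX_cmp
  refine ⟨C, hC, fun t ht y => ?_⟩
  have h1 := h t ht y
  rw [← Complex.norm_conj] at h1
  refine le_trans (le_of_eq ?_) h1
  congr 1
  have hcj : ∀ z : ℂ, (starRingEnd ℂ) (XX z) = XX ((starRingEnd ℂ) z) := fun z =>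
    (H345.Chi.XX_conj z).symm
  rw [map_sub, map_mul, hcj, hcj, ← Complex.exp_conj, half_conj, half_conj]
  have e1 : (((5 / 4 : ℝ) : ℂ) + ((t + y : ℝ) : ℂ) * I) = (5 / 4 : ℂ) + ((t + y : ℝ) : ℂ) * I := by
    push_cast; ring
  have e2 : (((1 / 2 : ℝ) : ℂ) + (t : ℂ) * I) = (1 / 2 : ℂ) + (t : ℂ) * I := by
    push_cast; ring
  have e3 : (starRingEnd ℂ) (((3 / 4 : ℂ) + (y : ℂ) * I) * ((Real.log (t / (2 * Real.pi)) : ℝ) : ℂ)) =
      -((((-(3 / 4) : ℝ) : ℂ) + (y : ℂ) * I) * ((Real.log (t / (2 * Real.pi)) : ℝ) : ℂ)) := by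
    have e4 : (3 / 4 : ℂ) = ((3 / 4 : ℝ) : ℂ) := by push_cast; ring
    rw [map_mul, map_add, map_mul, Complex.conj_I, Complex.conj_ofReal, Complex.conj_ofReal, e4,
      Complex.conj_ofReal]
    push_cast
    ring
  rw [e1, e2, e3]

theorem main (η : ℝ) (hη : 0 < η) (hη1 : η ≤ 1 / 100) : ∃ k₀ : ℕ, ∀ k : ℕ, k₀ ≤ k → ∃ T₀ : ℝ,
    ∀ T : ℝ, T₀ ≤ T → ∀ t : ℝ, T / 8 ≤ t → ∀ D : ℝ, 0 ≤ D → D ≤ 1 / 2 * Real.log T →
    ∀ s : ℂ, s = ((1 / 2 : ℝ) : ℂ) + (t : ℂ) * I →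
    ‖riemannZeta s - cs k (η * Real.log T / k) D s -
      XX (1 - s) * cs k (η * Real.log T / k) (Real.log (t / (2 * Real.pi)) - D - η * Real.log T)
        (1 - s)‖ ≤ T ^ (-(1 / 5) : ℝ) := by
  obtain ⟨k₁, hleft⟩ := left_id (3 / 4) (by norm_num) (by norm_num)
  obtain ⟨Cz, hCz, hz⟩ := zeta_bdd54
  obtain ⟨C, hC, hXX⟩ := XX_cmp'
  obtain ⟨CX, hCX, hX⟩ := XX_upper 2
  refine ⟨k₁ + 4, fun k hk => ?_⟩
  have hk4 : 4 ≤ k := by omega
  have hkpos : (0 : ℝ) < k := by exact_mod_cast (by omega : 0 < k)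
  obtain ⟨Q, hQ⟩ : ∃ Q : ℝ, Q = C * Cz * 3 ^ k * 16 + 24 + 1 := ⟨_, rfl⟩
  have hQ1 : 1 ≤ Q := by
    rw [hQ]
    have : 0 ≤ C * Cz * 3 ^ k * 16 := by positivity
    linarith
  refine ⟨max (max (Real.exp (k / η)) 192) (Q ^ 20), fun T hT t ht D hD0 hD s hs => ?_⟩
  have hT1 : Real.exp (k / η) ≤ T := ((le_max_left _ _).trans (le_max_left _ _)).trans hT
  have hT2 : 192 ≤ T := ((le_max_right _ _).trans (le_max_left _ _)).trans hT
  have hT3 : Q ^ 20 ≤ T := (le_max_right _ _).trans hT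
  have hT0 : 0 < T := by linarith
  have ht24 : 24 ≤ t := by linarith
  have ht0 : 0 < t := by linarith
  obtain ⟨L, hL⟩ : ∃ L : ℝ, L = Real.log T := ⟨_, rfl⟩
  rw [← hL] at hD ⊢
  have hLk : k / η ≤ L := by
    rw [hL, Real.le_log_iff_exp_le hT0]
    exact hT1
  have hL0 : 0 < L := lt_of_lt_of_le (by positivity) hLk
  obtain ⟨c, hcdef⟩ : ∃ c : ℝ, c = η * L / k := ⟨_, rfl⟩
  have hc1 : 1 ≤ c := by
    rw [hcdef, le_div_iff₀ hkpos]
    rw [div_le_iff₀ hη] at hLk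
    linarith
  have hc : 0 < c := by linarith
  have hkc : k * c = η * L := by
    rw [hcdef]
    field_simp
  rw [← hcdef]
  obtain ⟨l, hl⟩ : ∃ l : ℝ, l = Real.log (t / (2 * Real.pi)) := ⟨_, rfl⟩
  rw [← hl]
  have hD' : l - D - η * L = l - D - k * c := by rw [hkc]
  rw [hD']
  have hsre : s.re = 1 / 2 := by rw [hs]; simp
  have hsim : s.im = t := by rw [hs]; simp
  have h1s : 1 - s = ((1 / 2 : ℝ) : ℂ) - (t : ℂ) * I := by
    rw [hs]; push_cast; ring
  have hid := hleft k (by omega) c D hc s hsre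
  -- notation
  obtain ⟨w, hw⟩ : ∃ w : ℝ → ℂ, w = fun y : ℝ => ((-(3 / 4) : ℝ) : ℂ) + (y : ℂ) * I := ⟨_, rfl⟩
  obtain ⟨u, hu⟩ : ∃ u : ℝ → ℂ, u = fun y : ℝ => ((5 / 4 : ℝ) : ℂ) - ((t + y : ℝ) : ℂ) * I :=
    ⟨_, rfl⟩
  have hwc : Continuous w := by rw [hw]; fun_prop
  have huc : Continuous u := by rw [hu]; fun_prop
  have hure : ∀ y, (u y).re = 5 / 4 := by intro y; rw [hu]; simp
  have huw : ∀ y, 1 - u y = s + w y := by
    intro y
    rw [hu, hw, hs]
    push_cast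
    ring
  have huw' : ∀ y, u y = 1 - s - w y := by
    intro y
    have := huw y
    linear_combination -this
  have hune : ∀ y, u y ≠ 1 := by
    intro y h
    have := hure y
    rw [h] at this
    norm_num at this
  have hzeta : ∀ y, riemannZeta (s + w y) = XX (u y) * riemannZeta (u y) := by
    intro y
    rw [← huw]
    exact Pool.Agent.H448R2.GC.zeta_fe (u y) (by rw [hure]; norm_num) (hune y)
  have hcontX : Continuous (fun y : ℝ => XX (u y)) := by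
    rw [continuous_iff_continuousAt]
    intro y
    exact ContinuousAt.comp (g := XX) (S4.XX_diff (u y) (by rw [hure]; norm_num)).continuousAt
      huc.continuousAt
  have hcontZ : Continuous (fun y : ℝ => riemannZeta (u y)) := by
    rw [continuous_iff_continuousAt]
    intro y
    exact ContinuousAt.comp (g := riemannZeta) (differentiableAt_riemannZeta (hune y)).continuousAt
      huc.continuousAt
  have hcontK : Continuous (ker k c D (-(3 / 4))) :=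
    Pool.Agent.H448R2.GC.ker_cont k c D (-(3 / 4)) (by norm_num)
  obtain ⟨A, hA⟩ : ∃ A : ℝ → ℂ, A = fun y : ℝ => XX (1 - s) * cexp (-(w y * (l : ℂ))) := ⟨_, rfl⟩
  have hAc : Continuous A := by rw [hA]; fun_prop
  -- bounds
  have hkerb : ∀ y : ℝ, ‖ker k c D (-(3 / 4)) y‖ ≤ 2 * 3 ^ k * ((1 + |y|) ^ k)⁻¹ := by
    intro y
    refine (Pool.Agent.H448R2.GC.ker_bound k c D (-(3 / 4)) y hc).trans ?_
    rw [max_eq_right (by norm_num), mul_zero, add_zero]
    have h1 : 3 / 4 ≤ ‖(((-(3 / 4) : ℝ) : ℂ)) + (y : ℂ) * I‖ := by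
      have := Complex.abs_re_le_norm ((((-(3 / 4) : ℝ) : ℂ)) + (y : ℂ) * I)
      simp only [Complex.add_re, Complex.ofReal_re, Complex.mul_re, Complex.I_re, mul_zero,
        Complex.ofReal_im, Complex.I_im, mul_one, sub_self, add_zero] at this
      rw [abs_of_neg (by norm_num)] at this
      linarith
    have h2 : |y| ≤ ‖(((-(3 / 4) : ℝ) : ℂ)) + (y : ℂ) * I‖ := by
      have := Complex.abs_im_le_norm ((((-(3 / 4) : ℝ) : ℂ)) + (y : ℂ) * I)
      simpa using this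
    obtain ⟨r, hr⟩ : ∃ r : ℝ, r = ‖(((-(3 / 4) : ℝ) : ℂ)) + (y : ℂ) * I‖ := ⟨_, rfl⟩
    rw [← hr] at h1 h2 ⊢
    have hr0 : 0 < r := by linarith
    have h3 : (3 / (1 + c * r)) ^ k ≤ 3 ^ k * ((1 + |y|) ^ k)⁻¹ := by
      rw [← inv_pow, ← mul_pow, ← div_eq_mul_inv]
      apply pow_le_pow_left₀ (by positivity)
      apply div_le_div_of_nonneg_left (by norm_num) (by positivity)
      have : |y| ≤ c * r := by nlinarith [abs_nonneg y]
      linarith
    have h4 : Real.exp (D * -(3 / 4)) ≤ 1 := Real.exp_le_one_iff.2 (by linarith)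
    have h5 : 1 / r ≤ 2 := by
      rw [div_le_iff₀ hr0]
      linarith
    calc Real.exp (D * -(3 / 4)) * (3 / (1 + c * r)) ^ k / r
        = Real.exp (D * -(3 / 4)) * (3 / (1 + c * r)) ^ k * (1 / r) := by ring
      _ ≤ 1 * (3 ^ k * ((1 + |y|) ^ k)⁻¹) * 2 := by gcongr
      _ = _ := by ring
  obtain ⟨N, hN⟩ : ∃ N : ℝ, N = C * Cz * (2 * 3 ^ k) * t ^ (-(1 / 4) : ℝ) := ⟨_, rfl⟩
  have hN0 : 0 ≤ N := by rw [hN]; positivity
  have hE : ∀ y : ℝ, ‖(XX (u y) - A y) * riemannZeta (u y) * ker k c D (-(3 / 4)) y‖ ≤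
      N * (1 + y ^ 2)⁻¹ := by
    intro y
    rw [norm_mul, norm_mul]
    have b1 : ‖XX (u y) - A y‖ ≤ C * (1 + |y|) ^ 2 * t ^ (-(1 / 4) : ℝ) := by
      have := hXX t ht24 y
      rw [hu, hA, h1s, hw, hl]
      exact this
    have b2 : ‖riemannZeta (u y)‖ ≤ Cz := hz _ (by rw [hure])
    have b3 := hkerb y
    have b4 := S4.decay k 2 |y| (abs_nonneg y) (by
      have : (4 : ℝ) ≤ k := by exact_mod_cast hk4
      linarith)
    rw [sq_abs, show ((1 + |y|) ^ (2 : ℝ)) = (1 + |y|) ^ 2 by norm_cast] at b4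
    calc ‖XX (u y) - A y‖ * ‖riemannZeta (u y)‖ * ‖ker k c D (-(3 / 4)) y‖
        ≤ (C * (1 + |y|) ^ 2 * t ^ (-(1 / 4) : ℝ)) * Cz * (2 * 3 ^ k * ((1 + |y|) ^ k)⁻¹) := by
          gcongr
      _ = N * ((1 + |y|) ^ 2 * ((1 + |y|) ^ k)⁻¹) := by rw [hN]; ring
      _ ≤ _ := mul_le_mul_of_nonneg_left b4 hN0
  have hint2 : Integrable (fun y : ℝ => (XX (u y) - A y) * riemannZeta (u y) *
      ker k c D (-(3 / 4)) y) := by
    refine (integrable_inv_one_add_sq.const_mul N).mono' ?_ (ae_of_all _ hE)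
    exact (((hcontX.sub hAc).mul hcontZ).mul hcontK).aestronglyMeasurable
  have hkerint : Integrable (ker k c D (-(3 / 4))) :=
    Pool.Agent.H448R2.GC.ker_integrable k (by omega) c D (-(3 / 4)) hc (by norm_num)
  have hAb : ∀ y : ℝ, ‖A y‖ ≤ ‖XX (1 - s)‖ * Real.exp (3 / 4 * l) := by
    intro y
    rw [hA]
    simp only
    rw [norm_mul, Complex.norm_exp]
    apply mul_le_mul_of_nonneg_left _ (norm_nonneg _)
    apply Real.exp_le_exp.2
    have : (-(w y * (l : ℂ))).re = 3 / 4 * l := by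
      rw [hw]
      simp
    rw [this]
  have hint1 : Integrable (fun y : ℝ => (A y * riemannZeta (u y)) * ker k c D (-(3 / 4)) y) := by
    refine hkerint.bdd_mul (c := ‖XX (1 - s)‖ * Real.exp (3 / 4 * l) * Cz)
      (hAc.mul hcontZ).aestronglyMeasurable (Eventually.of_forall fun y => ?_)
    rw [norm_mul]
    exact mul_le_mul (hAb y) (hz _ (by rw [hure])) (norm_nonneg _) (by positivity)
  have hsplit : (∫ y : ℝ, riemannZeta (s + (((-(3 / 4) : ℝ) : ℂ) + (y : ℂ) * I)) *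
      ker k c D (-(3 / 4)) y) =
      (∫ y : ℝ, (A y * riemannZeta (u y)) * ker k c D (-(3 / 4)) y) +
      ∫ y : ℝ, (XX (u y) - A y) * riemannZeta (u y) * ker k c D (-(3 / 4)) y := by
    rw [← integral_add hint1 hint2]
    congr 1
    ext y
    have h1 : (((-(3 / 4) : ℝ) : ℂ) + (y : ℂ) * I) = w y := by rw [hw]
    rw [h1, hzeta]
    ring
  -- the main term
  have hmain : (∫ y : ℝ, (A y * riemannZeta (u y)) * ker k c D (-(3 / 4)) y) =
      -(XX (1 - s) * ∫ y : ℝ, riemannZeta (1 - s + (((3 / 4 : ℝ) : ℂ) + (y : ℂ) * I)) *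
        ker k c (l - D - k * c) (3 / 4) y) := by
    rw [← integral_neg_eq_self (fun y : ℝ => riemannZeta (1 - s + (((3 / 4 : ℝ) : ℂ) +
      (y : ℂ) * I)) * ker k c (l - D - k * c) (3 / 4) y), ← integral_const_mul, ← integral_neg]
    congr 1
    ext y
    have h1 : (((3 / 4 : ℝ) : ℂ) + ((-y : ℝ) : ℂ) * I) = -w y := by
      rw [hw]; push_cast; ring
    have h2 := ker_dual k c D l (3 / 4) y hc (by norm_num)
    have h3 : (((-(3 / 4) : ℝ) : ℂ) + (y : ℂ) * I) = w y := by rw [hw]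
    rw [h3] at h2
    rw [h1, huw' y, hA]
    simp only
    have h4 : 1 - s + -w y = 1 - s - w y := by ring
    rw [h4]
    linear_combination (XX (1 - s) * riemannZeta (1 - s - w y)) * h2
  have h1re : (1 - s).re = 1 / 2 := by
    rw [Complex.sub_re, hsre, Complex.one_re]; norm_num
  have hcsl := Pool.Agent.H448R2.GC.cs_line k (by omega) c (l - D - k * c) (3 / 4) hc (by norm_num)
    (1 - s) (by rw [h1re]; norm_num)
  have hpi : (2 * (Real.pi : ℂ)) ≠ 0 := by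
    have : (Real.pi : ℂ) ≠ 0 := by exact_mod_cast Real.pi_ne_zero
    simp [this]
  have hfin : riemannZeta s - cs k c D s - XX (1 - s) * cs k c (l - D - k * c) (1 - s) =
      -(cexp ((D : ℂ) * (1 - s)) * Ps k c (1 - s) / (1 - s)) - (1 / (2 * Real.pi)) *
      ∫ y : ℝ, (XX (u y) - A y) * riemannZeta (u y) * ker k c D (-(3 / 4)) y := by
    rw [hsplit, hmain] at hid
    rw [← hid, hcsl]
    ring
  -- the residue
  have hnorm1 : T / 8 ≤ ‖1 - s‖ := by
    have := Complex.abs_im_le_norm (1 - s)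
    rw [Complex.sub_im, hsim, Complex.one_im, zero_sub, abs_neg, abs_of_pos ht0] at this
    linarith
  have hR : ‖cexp ((D : ℂ) * (1 - s)) * Ps k c (1 - s) / (1 - s)‖ ≤ 24 * T ^ (-(1 / 4) : ℝ) := by
    have h2 : ‖cexp ((D : ℂ) * (1 - s))‖ ≤ Real.exp (L / 4) := by
      rw [Complex.norm_exp, Complex.re_ofReal_mul, h1re]
      apply Real.exp_le_exp.2
      linarith
    have h3 : ‖Ps k c (1 - s)‖ ≤ Real.exp (L / 4) * (24 * T⁻¹) := by
      refine (Pool.Agent.H448R2.GC.Ps_bound k c hc (1 - s)).trans ?_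
      apply mul_le_mul _ _ (by positivity) (Real.exp_pos _).le
      · apply Real.exp_le_exp.2
        rw [hkc, h1re, max_eq_left (by norm_num)]
        nlinarith
      · have hcn : T / 8 ≤ c * ‖1 - s‖ :=
          hnorm1.trans (le_mul_of_one_le_left (norm_nonneg _) hc1)
        have h4 : 3 / (1 + c * ‖1 - s‖) ≤ 24 * T⁻¹ := by
          rw [← div_eq_mul_inv, div_le_div_iff₀ (by positivity) hT0]
          linarith
        have h5 : 3 / (1 + c * ‖1 - s‖) ≤ 1 := by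
          rw [div_le_one (by positivity)]
          linarith
        calc (3 / (1 + c * ‖1 - s‖)) ^ k ≤ (3 / (1 + c * ‖1 - s‖)) ^ 1 :=
              pow_le_pow_of_le_one (by positivity) h5 (by omega)
          _ = 3 / (1 + c * ‖1 - s‖) := pow_one _
          _ ≤ _ := h4
    have hne1 : 1 ≤ ‖1 - s‖ := by linarith
    rw [norm_div, norm_mul]
    calc ‖cexp ((D : ℂ) * (1 - s))‖ * ‖Ps k c (1 - s)‖ / ‖1 - s‖
        ≤ Real.exp (L / 4) * (Real.exp (L / 4) * (24 * T⁻¹)) / 1 := by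
          apply div_le_div₀ (by positivity) _ one_pos hne1
          exact mul_le_mul h2 h3 (norm_nonneg _) (Real.exp_pos _).le
      _ = 24 * (Real.exp (L / 4) * Real.exp (L / 4) * T⁻¹) := by ring
      _ = 24 * T ^ (-(1 / 2) : ℝ) := by
          congr 1
          rw [Real.rpow_def_of_pos hT0, ← hL, ← Real.exp_add, ← Real.exp_log hT0, ← hL,
            ← Real.exp_neg, ← Real.exp_add]
          congr 1
          ring
      _ ≤ 24 * T ^ (-(1 / 4) : ℝ) := by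
          apply mul_le_mul_of_nonneg_left _ (by norm_num)
          exact Real.rpow_le_rpow_of_exponent_le (by linarith) (by norm_num)
  -- the error integral
  have hI : ‖∫ y : ℝ, (XX (u y) - A y) * riemannZeta (u y) * ker k c D (-(3 / 4)) y‖ ≤
      N * Real.pi := by
    refine (norm_integral_le_of_norm_le (integrable_inv_one_add_sq.const_mul N)
      (ae_of_all _ hE)).trans ?_
    rw [integral_const_mul, integral_univ_inv_one_add_sq]
  have htT : t ^ (-(1 / 4) : ℝ) ≤ 8 * T ^ (-(1 / 4) : ℝ) := by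
    have h1 : t ^ (-(1 / 4) : ℝ) ≤ (T / 8) ^ (-(1 / 4) : ℝ) :=
      Real.rpow_le_rpow_of_nonpos (by positivity) ht (by norm_num)
    have h2 : (T / 8) ^ (-(1 / 4) : ℝ) = T ^ (-(1 / 4) : ℝ) * 8 ^ (1 / 4 : ℝ) := by
      rw [Real.div_rpow hT0.le (by norm_num), Real.rpow_neg (by norm_num : (0 : ℝ) ≤ 8), div_inv_eq_mul]
    have h3 : (8 : ℝ) ^ (1 / 4 : ℝ) ≤ 8 := by
      calc (8 : ℝ) ^ (1 / 4 : ℝ) ≤ 8 ^ (1 : ℝ) :=
            Real.rpow_le_rpow_of_exponent_le (by norm_num) (by norm_num)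
        _ = 8 := Real.rpow_one 8
    rw [h2] at h1
    have h4 : 0 ≤ T ^ (-(1 / 4) : ℝ) := by positivity
    nlinarith
  have hpin : ‖(1 / (2 * (Real.pi : ℂ)))‖ = 1 / (2 * Real.pi) := by
    rw [norm_div, norm_mul, Complex.norm_real, Real.norm_eq_abs, abs_of_pos Real.pi_pos]
    norm_num
  have hI2 : ‖(1 / (2 * (Real.pi : ℂ))) * ∫ y : ℝ, (XX (u y) - A y) * riemannZeta (u y) *
      ker k c D (-(3 / 4)) y‖ ≤ C * Cz * 3 ^ k * 16 * T ^ (-(1 / 4) : ℝ) := by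
    rw [norm_mul, hpin]
    have hp : 0 < Real.pi := Real.pi_pos
    calc 1 / (2 * Real.pi) * ‖∫ y : ℝ, (XX (u y) - A y) * riemannZeta (u y) *
          ker k c D (-(3 / 4)) y‖
        ≤ 1 / (2 * Real.pi) * (N * Real.pi) := mul_le_mul_of_nonneg_left hI (by positivity)
      _ = N / 2 := by field_simp
      _ = C * Cz * 3 ^ k * t ^ (-(1 / 4) : ℝ) := by rw [hN]; ring
      _ ≤ C * Cz * 3 ^ k * (8 * T ^ (-(1 / 4) : ℝ)) :=
          mul_le_mul_of_nonneg_left htT (by positivity)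
      _ ≤ C * Cz * 3 ^ k * 16 * T ^ (-(1 / 4) : ℝ) := by
          have : 0 ≤ C * Cz * 3 ^ k * T ^ (-(1 / 4) : ℝ) := by positivity
          nlinarith
  rw [hfin]
  refine (norm_sub_le _ _).trans ?_
  rw [norm_neg]
  have hT20 : Q ≤ T ^ (1 / 20 : ℝ) := by
    have h1 : (Q ^ 20) ^ (1 / 20 : ℝ) ≤ T ^ (1 / 20 : ℝ) :=
      Real.rpow_le_rpow (by positivity) hT3 (by norm_num)
    have h2 : (Q ^ 20) ^ (1 / 20 : ℝ) = Q := by
      rw [← Real.rpow_natCast, ← Real.rpow_mul (by linarith)]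
      norm_num
    rwa [h2] at h1
  calc ‖cexp ((D : ℂ) * (1 - s)) * Ps k c (1 - s) / (1 - s)‖ +
        ‖(1 / (2 * (Real.pi : ℂ))) * ∫ y : ℝ, (XX (u y) - A y) * riemannZeta (u y) *
          ker k c D (-(3 / 4)) y‖
      ≤ 24 * T ^ (-(1 / 4) : ℝ) + C * Cz * 3 ^ k * 16 * T ^ (-(1 / 4) : ℝ) := add_le_add hR hI2
    _ ≤ Q * T ^ (-(1 / 4) : ℝ) := by
        rw [hQ]
        have : 0 ≤ T ^ (-(1 / 4) : ℝ) := by positivity
        nlinarith
    _ ≤ T ^ (1 / 20 : ℝ) * T ^ (-(1 / 4) : ℝ) := mul_le_mul_of_nonneg_right hT20 (by positivity)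
    _ = T ^ (-(1 / 5) : ℝ) := by
        rw [← Real.rpow_add hT0]
        norm_num

end Pool.Agent.TH75.AFE1
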